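import Pool.Agent.R536.CS.RedPoly

/-!
# Pairwise stable matchings in hospitals/residents instances with lower quotas
-/

set_option autoImplicit false

namespace Pool.Agent.NPC.R536LQ

/-- An instance: the residents (named by natural numbers) with their preference lists of hospitals,
most preferred first, and the hospitals (named by natural numbers) with their lower quota, their
upper quota and their preference list of residents, most preferred first. -/
abbrev Inst : Type := List (ℕ × List ℕ) × List (ℕ × ((ℕ × ℕ) × List ℕ))

/-- The names of the residents. -/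
def residents (I : Inst) : List ℕ := I.1.map Prod.fst

/-- The names of the hospitals. -/
def hospitals (I : Inst) : List ℕ := I.2.map Prod.fst

/-- The preference list of the resident `r`: the hospitals acceptable to her. -/
def rpref (I : Inst) (r : ℕ) : List ℕ := (I.1.lookup r).getD []

/-- Quotas and preference list of the hospital `h`. -/
def hdata (I : Inst) (h : ℕ) : (ℕ × ℕ) × List ℕ := (I.2.lookup h).getD ((0, 0), [])

/-- The lower quota of `h`. -/
def lq (I : Inst) (h : ℕ) : ℕ := (hdata I h).1.1

/-- The upper quota of `h`. -/
def uq (I : Inst) (h : ℕ) : ℕ := (hdata I h).1.2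

/-- The preference list of the hospital `h`: the residents acceptable to it. -/
def hpref (I : Inst) (h : ℕ) : List ℕ := (hdata I h).2

/-- Correct instances: names and preference lists are without repetitions, acceptability is mutual,
upper quotas are positive and lower quotas are at most the upper quotas. -/
structure IsInst (I : Inst) : Prop where
  residents_nodup : (residents I).Nodup
  hospitals_nodup : (hospitals I).Nodup
  rpref_nodup : ∀ r, (rpref I r).Nodup
  hpref_nodup : ∀ h, (hpref I h).Nodup
  symm : ∀ r h, h ∈ rpref I r ↔ r ∈ hpref I h
  quotas : ∀ h ∈ hospitals I, 1 ≤ uq I h ∧ lq I h ≤ uq I h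

/-- The resident `r` prefers the hospital `h` to the hospital `h'`. -/
def RPrefers (I : Inst) (r h h' : ℕ) : Prop := (rpref I r).idxOf h < (rpref I r).idxOf h'

/-- The hospital `h` prefers the resident `r` to the resident `r'`. -/
def HPrefers (I : Inst) (h r r' : ℕ) : Prop := (hpref I h).idxOf r < (hpref I h).idxOf r'

/-- The number of residents assigned to `h` in the set `M` of pairs (resident, hospital). -/
def load (M : Finset (ℕ × ℕ)) (h : ℕ) : ℕ := (M.filter (fun p => p.2 = h)).card

/-- `M` is a set of acceptable pairs in which each resident occurs at most once. -/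
structure IsAssignment (I : Inst) (M : Finset (ℕ × ℕ)) : Prop where
  acceptable : ∀ r h, (r, h) ∈ M → h ∈ rpref I r
  unique : ∀ r h h', (r, h) ∈ M → (r, h') ∈ M → h = h'

/-- Matchings: assignments in which each hospital is empty (closed) or its number of residents is
between its lower and its upper quota (open). -/
def IsMatching (I : Inst) (M : Finset (ℕ × ℕ)) : Prop :=
  IsAssignment I M ∧ ∀ h ∈ hospitals I, load M h = 0 ∨ (lq I h ≤ load M h ∧ load M h ≤ uq I h)

/-- The resident `r` is unassigned or prefers `h` to her hospital. -/
def Wants (I : Inst) (M : Finset (ℕ × ℕ)) (r h : ℕ) : Prop :=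
  (∀ h', (r, h') ∉ M) ∨ ∃ h', (r, h') ∈ M ∧ RPrefers I r h h'

/-- The hospital `h` has fewer residents than its upper quota or prefers `r` to some resident
assigned to it. -/
def Admits (I : Inst) (M : Finset (ℕ × ℕ)) (h r : ℕ) : Prop :=
  load M h < uq I h ∨ ∃ r', (r', h) ∈ M ∧ HPrefers I h r r'

/-- Pairwise stable matchings: no acceptable pair `(r, h)` with `h` open such that `r` is
unassigned or prefers `h` to her hospital, and `h` has a free place or prefers `r` to some resident
assigned to it. -/
def PairwiseStable (I : Inst) (M : Finset (ℕ × ℕ)) : Prop :=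
  IsMatching I M ∧ ¬ ∃ r h, h ∈ rpref I r ∧ Wants I M r h ∧ 0 < load M h ∧ Admits I M h r

/-- The stable matchings of the classical instance `J` obtained by ignoring the lower quotas. -/
def ClassicallyStable (I : Inst) (M : Finset (ℕ × ℕ)) : Prop :=
  IsAssignment I M ∧ (∀ h ∈ hospitals I, load M h ≤ uq I h) ∧
    ¬ ∃ r h, h ∈ rpref I r ∧ Wants I M r h ∧ Admits I M h r

/-- `M` is the resident-optimal stable matching of `J`: every resident assigned in some stable
matching of `J` is assigned in `M` to the same hospital or to one she prefers. -/
def ResidentOptimal (I : Inst) (M : Finset (ℕ × ℕ)) : Prop :=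
  ClassicallyStable I M ∧ ∀ M', ClassicallyStable I M' → ∀ r h', (r, h') ∈ M' →
    ∃ h, (r, h) ∈ M ∧ (h = h' ∨ RPrefers I r h h')

/-- The hospital `h` is popular: its number of residents in the resident-optimal stable matching of
`J` is at least its lower quota. -/
def Popular (I : Inst) (h : ℕ) : Prop := ∃ Ma, ResidentOptimal I Ma ∧ lq I h ≤ load Ma h

/-- Popular pairwise stable matchings: every popular hospital is open. -/
def PopularPairwiseStable (I : Inst) (M : Finset (ℕ × ℕ)) : Prop :=
  PairwiseStable I M ∧ ∀ h ∈ hospitals I, Popular I h → 0 < load M h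

/-- The decision version of Problem A for instances whose lower quotas are between `lo` and `2`:
given `(I, k)`, is there a pairwise stable matching of size at least `k`? -/
def ProblemA (lo : ℕ) (x : Inst × ℕ) : Prop :=
  IsInst x.1 ∧ (∀ h ∈ hospitals x.1, lo ≤ lq x.1 h ∧ lq x.1 h ≤ 2) ∧
    ∃ M, PairwiseStable x.1 M ∧ x.2 ≤ M.card

/-- The decision version of Problem B for instances whose lower quotas are between `lo` and `2`:
given `(I, k)`, is there a popular pairwise stable matching of size at least `k`? -/
def ProblemB (lo : ℕ) (x : Inst × ℕ) : Prop :=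
  IsInst x.1 ∧ (∀ h ∈ hospitals x.1, lo ≤ lq x.1 h ∧ lq x.1 h ≤ 2) ∧
    ∃ M, PopularPairwiseStable x.1 M ∧ x.2 ≤ M.card

end Pool.Agent.NPC.R536LQ
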