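import Pool.Agent.R536.LQ.Defs

/-!
# The reduction from 3-satisfiability
-/

set_option autoImplicit false

namespace Pool.Agent.NPC.R536LQ

open Pool.Agent.NPC.R536CS

/-! ### Instances given by lists of names -/

theorem lookup_map {β : Type} (l : List ℕ) (f : ℕ → β) (a : ℕ) :
    (l.map (fun t => (t, f t))).lookup a = if a ∈ l then some (f a) else none := by
  induction l with
  | nil => simp
  | cons b l ih =>
    rw [List.map_cons, List.lookup_cons, ih]
    by_cases h : a = b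
    · subst h
      simp
    · have h' : (a == b) = false := by simpa using h
      rw [h']
      simp [h]

variable (φ : List (Lit ℕ × Lit ℕ × Lit ℕ))

/-- The hospital to which the clause resident applies for the occurrence `r`. -/
def occ (r : ℕ) : ℕ := if sg φ r = true then 3 * vr φ r else 3 * r + 1

/-- The preference list of the resident `t`. -/
def rl (t : ℕ) : List ℕ :=
  (3 * t + 2) :: (if t % 3 = 0 then [occ φ t, occ φ (t + 1), occ φ (t + 2)].dedup
    else [3 * vr φ (t / 3), 3 * (t / 3) + 1])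

/-- The names of the residents. -/
def rn : List ℕ :=
  (List.range (9 * φ.length)).filter (fun t => decide (t % 3 ≠ 0 ∨ t < 3 * φ.length))

/-- The names of the hospitals. -/
def hn : List ℕ :=
  (vars φ).map (fun v => 3 * v) ++ ((List.range (3 * φ.length)).map (fun r => 3 * r + 1) ++
    (rn φ).map (fun t => 3 * t + 2))

/-- The preference list of the hospital `h`. -/
def hl (h : ℕ) : List ℕ := (rn φ).filter (fun t => decide (h ∈ rl φ t))

/-- The instance of a formula. -/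
def inst : Inst :=
  ((rn φ).map (fun t => (t, rl φ t)),
    (hn φ).map (fun h => (h, ((2, 9 * φ.length + 2), hl φ h))))

variable {φ}

theorem mem_rn {t : ℕ} : t ∈ rn φ ↔ t < 9 * φ.length ∧ (t % 3 ≠ 0 ∨ t < 3 * φ.length) := by
  simp [rn]

theorem rn_nodup : (rn φ).Nodup := List.nodup_range.filter _

theorem length_rn_le : (rn φ).length ≤ 9 * φ.length := by
  unfold rn
  exact (List.length_filter_le _ _).trans (by simp)

theorem residents_eq : residents (inst φ) = rn φ := by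
  unfold residents inst
  simp [Function.comp_def]

theorem hospitals_eq : hospitals (inst φ) = hn φ := by
  unfold hospitals inst
  simp [Function.comp_def]

theorem rpref_eq (t : ℕ) : rpref (inst φ) t = if t ∈ rn φ then rl φ t else [] := by
  unfold rpref inst
  rw [lookup_map]
  split_ifs <;> rfl

theorem rpref_of {t : ℕ} (h : t ∈ rn φ) : rpref (inst φ) t = rl φ t := by
  rw [rpref_eq, if_pos h]

theorem hdata_eq (h : ℕ) : hdata (inst φ) h =
    if h ∈ hn φ then ((2, 9 * φ.length + 2), hl φ h) else ((0, 0), []) := by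
  unfold hdata inst
  rw [lookup_map]
  split_ifs <;> rfl

theorem lq_of {h : ℕ} (hh : h ∈ hn φ) : lq (inst φ) h = 2 := by
  rw [lq, hdata_eq, if_pos hh]

theorem uq_of {h : ℕ} (hh : h ∈ hn φ) : uq (inst φ) h = 9 * φ.length + 2 := by
  rw [uq, hdata_eq, if_pos hh]

theorem mem_hn {h : ℕ} : h ∈ hn φ ↔ (∃ v ∈ vars φ, h = 3 * v) ∨
    (∃ r < 3 * φ.length, h = 3 * r + 1) ∨ ∃ t ∈ rn φ, h = 3 * t + 2 := by
  unfold hn
  simp only [List.mem_append, List.mem_map, List.mem_range]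
  constructor
  · rintro (⟨v, hv, rfl⟩ | ⟨r, hr, rfl⟩ | ⟨t, ht, rfl⟩)
    · exact Or.inl ⟨v, hv, rfl⟩
    · exact Or.inr (Or.inl ⟨r, hr, rfl⟩)
    · exact Or.inr (Or.inr ⟨t, ht, rfl⟩)
  · rintro (⟨v, hv, rfl⟩ | ⟨r, hr, rfl⟩ | ⟨t, ht, rfl⟩)
    · exact Or.inl ⟨v, hv, rfl⟩
    · exact Or.inr (Or.inl ⟨r, hr, rfl⟩)
    · exact Or.inr (Or.inr ⟨t, ht, rfl⟩)

theorem occ_cases (r : ℕ) : (sg φ r = true ∧ occ φ r = 3 * vr φ r) ∨
    (sg φ r = false ∧ occ φ r = 3 * r + 1) := by
  unfold occ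
  cases h : sg φ r
  · right; simp
  · left; simp

/-- The acceptable pairs. -/
theorem mem_rl {t h : ℕ} : h ∈ rl φ t ↔ h = 3 * t + 2 ∨
    (t % 3 = 0 ∧ ∃ s, s / 3 = t / 3 ∧ h = occ φ s) ∨
    (t % 3 ≠ 0 ∧ (h = 3 * vr φ (t / 3) ∨ h = 3 * (t / 3) + 1)) := by
  unfold rl
  rw [List.mem_cons]
  by_cases h0 : t % 3 = 0
  · rw [if_pos h0]
    simp only [List.mem_dedup, List.mem_cons, List.not_mem_nil, or_false, h0, ne_eq,
      not_true_eq_false, false_and, true_and]
    constructor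
    · rintro (h1 | h1 | h1 | h1)
      · exact Or.inl h1
      · exact Or.inr ⟨t, rfl, h1⟩
      · exact Or.inr ⟨t + 1, by omega, h1⟩
      · exact Or.inr ⟨t + 2, by omega, h1⟩
    · rintro (h1 | ⟨s, hs, h1⟩)
      · exact Or.inl h1
      · have : s = t ∨ s = t + 1 ∨ s = t + 2 := by omega
        rcases this with rfl | rfl | rfl
        · exact Or.inr (Or.inl h1)
        · exact Or.inr (Or.inr (Or.inl h1))
        · exact Or.inr (Or.inr (Or.inr h1))
  · rw [if_neg h0]
    simp [h0]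

theorem slot_lt {t s : ℕ} (ht : t ∈ rn φ) (h0 : t % 3 = 0) (hs : s / 3 = t / 3) :
    s < 3 * φ.length := by
  rw [mem_rn] at ht
  omega

theorem slot_lt' {t : ℕ} (ht : t ∈ rn φ) : t / 3 < 3 * φ.length := by
  rw [mem_rn] at ht
  omega

theorem mem_hn_of {t h : ℕ} (ht : t ∈ rn φ) (hh : h ∈ rl φ t) : h ∈ hn φ := by
  rw [mem_hn]
  rcases mem_rl.1 hh with rfl | ⟨h0, s, hs, rfl⟩ | ⟨h0, rfl | rfl⟩
  · exact Or.inr (Or.inr ⟨t, ht, rfl⟩)
  · have hs3 := slot_lt ht h0 hs
    rcases occ_cases (φ := φ) s with ⟨-, e⟩ | ⟨-, e⟩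
    · exact Or.inl ⟨vr φ s, vr_mem hs3, e⟩
    · exact Or.inr (Or.inl ⟨s, hs3, e⟩)
  · exact Or.inl ⟨_, vr_mem (slot_lt' ht), rfl⟩
  · exact Or.inr (Or.inl ⟨_, slot_lt' ht, rfl⟩)

theorem rl_nodup (t : ℕ) : (rl φ t).Nodup := by
  unfold rl
  rw [List.nodup_cons]
  by_cases h0 : t % 3 = 0
  · rw [if_pos h0]
    refine ⟨?_, List.nodup_dedup _⟩
    simp only [List.mem_dedup, List.mem_cons, List.not_mem_nil, or_false, not_or]
    refine ⟨?_, ?_, ?_⟩
    · rcases occ_cases (φ := φ) t with ⟨-, e⟩ | ⟨-, e⟩ <;> omega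
    · rcases occ_cases (φ := φ) (t + 1) with ⟨-, e⟩ | ⟨-, e⟩ <;> omega
    · rcases occ_cases (φ := φ) (t + 2) with ⟨-, e⟩ | ⟨-, e⟩ <;> omega
  · rw [if_neg h0]
    simp only [List.mem_cons, List.not_mem_nil, or_false, not_or, List.nodup_cons,
      List.nodup_nil, not_false_eq_true, and_true]
    omega

theorem hn_nodup : (hn φ).Nodup := by
  unfold hn
  rw [List.nodup_append, List.nodup_append]
  refine ⟨?_, ⟨?_, ?_, ?_⟩, ?_⟩
  · exact (List.nodup_dedup _).map fun a b h => by simpa using h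
  · exact List.nodup_range.map fun a b h => by simpa using h
  · exact rn_nodup.map fun a b h => by simpa using h
  · intro a ha b hb
    rw [List.mem_map] at ha hb
    obtain ⟨x, -, rfl⟩ := ha
    obtain ⟨y, -, rfl⟩ := hb
    omega
  · intro a ha b hb
    rw [List.mem_append, List.mem_map, List.mem_map] at hb
    rw [List.mem_map] at ha
    obtain ⟨x, -, rfl⟩ := ha
    rcases hb with ⟨y, -, rfl⟩ | ⟨y, -, rfl⟩ <;> omega

theorem isInst_inst : IsInst (inst φ) := by
  refine ⟨?_, ?_, ?_, ?_, ?_, ?_⟩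
  · rw [residents_eq]; exact rn_nodup
  · rw [hospitals_eq]; exact hn_nodup
  · intro r
    rw [rpref_eq]
    split_ifs
    · exact rl_nodup r
    · exact List.nodup_nil
  · intro h
    rw [hpref, hdata_eq]
    split_ifs
    · exact rn_nodup.filter _
    · exact List.nodup_nil
  · intro r h
    rw [rpref_eq, hpref, hdata_eq]
    by_cases hr : r ∈ rn φ
    · rw [if_pos hr]
      by_cases hh : h ∈ hn φ
      · rw [if_pos hh]
        simp [hl, hr]
      · rw [if_neg hh]
        constructor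
        · exact fun h1 => absurd (mem_hn_of hr h1) hh
        · intro h1; simp at h1
    · rw [if_neg hr]
      constructor
      · intro h1; simp at h1
      · intro h1
        exfalso
        split_ifs at h1
        · simp [hl, hr] at h1
        · simp at h1
  · intro h hh
    rw [hospitals_eq] at hh
    rw [uq_of hh, lq_of hh]
    omega

theorem lq_inst (lo : ℕ) (hlo : lo ≤ 2) : ∀ h ∈ hospitals (inst φ),
    lo ≤ lq (inst φ) h ∧ lq (inst φ) h ≤ 2 := by
  intro h hh
  rw [hospitals_eq] at hh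
  rw [lq_of hh]
  omega

/-! ### Facts about assignments -/

section

variable {M : Finset (ℕ × ℕ)}

theorem mem_names_of (hM : IsAssignment (inst φ) M) {t h : ℕ} (hm : (t, h) ∈ M) :
    t ∈ rn φ ∧ h ∈ rl φ t := by
  have := hM.acceptable t h hm
  rw [rpref_eq] at this
  split_ifs at this with h1
  · exact ⟨h1, this⟩
  · simp at this

theorem image_subset (hM : IsAssignment (inst φ) M) : M.image Prod.fst ⊆ (rn φ).toFinset := by
  intro t ht
  rw [Finset.mem_image] at ht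
  obtain ⟨⟨t', h⟩, hm, rfl⟩ := ht
  exact List.mem_toFinset.2 (mem_names_of hM hm).1

theorem card_image_fst (hM : IsAssignment (inst φ) M) (S : Finset (ℕ × ℕ)) (hS : S ⊆ M) :
    (S.image Prod.fst).card = S.card := by
  apply Finset.card_image_of_injOn
  rintro ⟨t, h⟩ h1 ⟨t', h'⟩ h2 (e : t = t')
  subst e
  rw [hM.unique t h h' (hS h1) (hS h2)]

theorem card_le (hM : IsAssignment (inst φ) M) (S : Finset (ℕ × ℕ)) (hS : S ⊆ M) :
    S.card ≤ (rn φ).length := by
  rw [← card_image_fst hM S hS, ← List.toFinset_card_of_nodup (rn_nodup (φ := φ))]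
  exact Finset.card_le_card ((Finset.image_subset_image hS).trans (image_subset hM))

theorem load_lt (hM : IsAssignment (inst φ) M) {h : ℕ} (hh : h ∈ hn φ) :
    load M h < uq (inst φ) h := by
  have h1 : load M h ≤ (rn φ).length := card_le hM _ (Finset.filter_subset _ _)
  have h2 := length_rn_le (φ := φ)
  rw [uq_of hh]
  omega

theorem load_pos {t h : ℕ} (hm : (t, h) ∈ M) : 0 < load M h := by
  unfold load
  rw [Finset.card_pos]
  exact ⟨(t, h), by simp [hm]⟩

theorem exists_of_load_pos {h : ℕ} (hl : 0 < load M h) : ∃ t, (t, h) ∈ M := by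
  unfold load at hl
  rw [Finset.card_pos] at hl
  obtain ⟨⟨t, h'⟩, hm⟩ := hl
  rw [Finset.mem_filter] at hm
  obtain ⟨hm, e⟩ := hm
  simp only at e
  subst e
  exact ⟨t, hm⟩

theorem load_le_one {h t : ℕ} (hu : ∀ t', (t', h) ∈ M → t' = t) : load M h ≤ 1 := by
  unfold load
  rw [Finset.card_le_one]
  rintro ⟨a, b⟩ h1 ⟨a', b'⟩ h2
  rw [Finset.mem_filter] at h1 h2
  obtain ⟨h1, e1⟩ := h1
  obtain ⟨h2, e2⟩ := h2
  simp only at e1 e2
  subst e1
  subst e2
  rw [hu _ h1, hu _ h2]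

theorem two_le_load {h t t' : ℕ} (h1 : (t, h) ∈ M) (h2 : (t', h) ∈ M) (hne : t ≠ t') :
    2 ≤ load M h := by
  unfold load
  rw [Nat.succ_le_iff, Finset.one_lt_card]
  exact ⟨(t, h), by simp [h1], (t', h), by simp [h2], by simpa using hne⟩

end

/-! ### From assignments of truth values to matchings -/

section Forth

variable (φ) (τ : ℕ → Bool)

/-- The open hospitals. -/
def op (h : ℕ) : Bool :=
  if h % 3 = 0 then τ (h / 3) else if h % 3 = 1 then !τ (vr φ (h / 3)) else false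

/-- The hospital of the resident `t`. -/
def asg (t : ℕ) : ℕ := ((rl φ t).find? (op φ τ)).getD 0

/-- The matching. -/
def Mt : Finset (ℕ × ℕ) := (rn φ).toFinset.image (fun t => (t, asg φ τ t))

variable {φ τ}

theorem op_X (v : ℕ) : op φ τ (3 * v) = τ v := by
  unfold op
  rw [if_pos (by omega)]
  congr 1
  omega

theorem op_N (r : ℕ) : op φ τ (3 * r + 1) = !τ (vr φ r) := by
  unfold op
  rw [if_neg (by omega), if_pos (by omega), show (3 * r + 1) / 3 = r by omega]

theorem op_D (t : ℕ) : op φ τ (3 * t + 2) = false := by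
  unfold op
  rw [if_neg (by omega), if_neg (by omega)]

theorem op_occ {s : ℕ} (h : τ (vr φ s) = sg φ s) : op φ τ (occ φ s) = true := by
  rcases occ_cases (φ := φ) s with ⟨h1, e⟩ | ⟨h1, e⟩
  · rw [e, op_X, h, h1]
  · rw [e, op_N, h, h1]; rfl

variable (hτ : ∀ c < φ.length, ∃ s, s / 3 = c ∧ τ (vr φ s) = sg φ s)

include hτ

theorem find_isSome {t : ℕ} (ht : t ∈ rn φ) : ((rl φ t).find? (op φ τ)).isSome := by
  rw [List.find?_isSome]
  by_cases h0 : t % 3 = 0
  · rw [mem_rn] at ht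
    obtain ⟨s, hs, h⟩ := hτ (t / 3) (by omega)
    exact ⟨occ φ s, mem_rl.2 (Or.inr (Or.inl ⟨h0, s, hs, rfl⟩)), op_occ h⟩
  · cases h : τ (vr φ (t / 3))
    · exact ⟨3 * (t / 3) + 1, mem_rl.2 (Or.inr (Or.inr ⟨h0, Or.inr rfl⟩)), by rw [op_N, h]; rfl⟩
    · exact ⟨3 * vr φ (t / 3), mem_rl.2 (Or.inr (Or.inr ⟨h0, Or.inl rfl⟩)), by rw [op_X, h]⟩

theorem find_asg {t : ℕ} (ht : t ∈ rn φ) : (rl φ t).find? (op φ τ) = some (asg φ τ t) := by
  obtain ⟨a, ha⟩ := Option.isSome_iff_exists.1 (find_isSome hτ ht)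
  unfold asg
  rw [ha]
  rfl

theorem asg_mem {t : ℕ} (ht : t ∈ rn φ) : asg φ τ t ∈ rl φ t :=
  List.mem_of_find?_eq_some (find_asg hτ ht)

theorem asg_op {t : ℕ} (ht : t ∈ rn φ) : op φ τ (asg φ τ t) = true :=
  List.find?_some (find_asg hτ ht)

theorem not_op_of_prefers {t h : ℕ} (ht : t ∈ rn φ)
    (hp : (rl φ t).idxOf h < (rl φ t).idxOf (asg φ τ t)) : op φ τ h = false := by
  have h1 := find_asg hτ ht
  rw [List.find?_eq_some_iff_append] at h1
  obtain ⟨-, as, bs, e, h2⟩ := h1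
  by_contra hop
  have hop' : op φ τ h = true := by simpa using hop
  have h3 : h ∉ as := by
    intro hm
    have := h2 h hm
    rw [hop'] at this
    exact absurd this (by simp)
  have h4 : (rl φ t).idxOf (asg φ τ t) ≤ as.length := by
    rw [e, List.idxOf_append]
    split_ifs with h5
    · exact (List.idxOf_lt_length_iff.2 h5).le
    · simp
  have h5 : as.length ≤ (rl φ t).idxOf h := by
    rw [e, List.idxOf_append, if_neg h3]
    omega
  omega

omit hτ in
theorem mem_Mt {t h : ℕ} : (t, h) ∈ Mt φ τ ↔ t ∈ rn φ ∧ h = asg φ τ t := by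
  unfold Mt
  simp only [Finset.mem_image, List.mem_toFinset, Prod.mk.injEq]
  constructor
  · rintro ⟨a, ha, rfl, rfl⟩; exact ⟨ha, rfl⟩
  · rintro ⟨ha, rfl⟩; exact ⟨t, ha, rfl, rfl⟩

omit hτ in
theorem card_Mt : (Mt φ τ).card = (rn φ).length := by
  unfold Mt
  rw [Finset.card_image_of_injective, List.toFinset_card_of_nodup rn_nodup]
  intro a b h
  simpa using congrArg Prod.fst h

theorem asg_slot {r : ℕ} (hr : r < 3 * φ.length) (i : ℕ) (hi : i = 1 ∨ i = 2) :
    3 * r + i ∈ rn φ ∧ asg φ τ (3 * r + i) = if τ (vr φ r) = true then 3 * vr φ r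
      else 3 * r + 1 := by
  have hm : 3 * r + i ∈ rn φ := by rw [mem_rn]; omega
  refine ⟨hm, ?_⟩
  have h1 := asg_mem hτ hm
  have h2 := asg_op hτ hm
  have hdiv : (3 * r + i) / 3 = r := by omega
  rw [mem_rl, hdiv] at h1
  rcases h1 with h1 | ⟨h1, -⟩ | ⟨-, h1 | h1⟩
  · rw [h1, op_D] at h2
    exact absurd h2 (by simp)
  · omega
  · rw [h1, op_X] at h2
    rw [h1, if_pos h2]
  · rw [h1, op_N] at h2
    rw [h1, if_neg (by simpa using h2)]

theorem two_le_of_op {h : ℕ} (hh : h ∈ hn φ) (hop : op φ τ h = true) : 2 ≤ load (Mt φ τ) h := by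
  rcases mem_hn.1 hh with ⟨v, hv, rfl⟩ | ⟨r, hr, rfl⟩ | ⟨t, -, rfl⟩
  · rw [op_X] at hop
    obtain ⟨r, hr, rfl⟩ : ∃ r < 3 * φ.length, vr φ r = v := by
      unfold vars at hv
      rw [List.mem_dedup, List.mem_map] at hv
      obtain ⟨a, ha, rfl⟩ := hv
      obtain ⟨r, hr, rfl⟩ := List.getElem_of_mem ha
      refine ⟨r, by rw [← length_lits]; exact hr, ?_⟩
      unfold vr
      rw [List.getD_eq_getElem _ _ hr]
    obtain ⟨h1, e1⟩ := asg_slot hτ hr 1 (Or.inl rfl)
    obtain ⟨h2, e2⟩ := asg_slot hτ hr 2 (Or.inr rfl)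
    rw [if_pos hop] at e1 e2
    exact two_le_load (mem_Mt.2 ⟨h1, e1.symm⟩) (mem_Mt.2 ⟨h2, e2.symm⟩) (by omega)
  · rw [op_N] at hop
    obtain ⟨h1, e1⟩ := asg_slot hτ hr 1 (Or.inl rfl)
    obtain ⟨h2, e2⟩ := asg_slot hτ hr 2 (Or.inr rfl)
    rw [if_neg (by simpa using hop)] at e1 e2
    exact two_le_load (mem_Mt.2 ⟨h1, e1.symm⟩) (mem_Mt.2 ⟨h2, e2.symm⟩) (by omega)
  · rw [op_D] at hop
    exact absurd hop (by simp)

theorem stable_Mt : PairwiseStable (inst φ) (Mt φ τ) := by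
  have hA : IsAssignment (inst φ) (Mt φ τ) := by
    refine ⟨?_, ?_⟩
    · intro t h hm
      rw [mem_Mt] at hm
      obtain ⟨ht, rfl⟩ := hm
      rw [rpref_of ht]
      exact asg_mem hτ ht
    · intro t h h' h1 h2
      rw [mem_Mt] at h1 h2
      rw [h1.2, h2.2]
  refine ⟨⟨hA, ?_⟩, ?_⟩
  · intro h hh
    rw [hospitals_eq] at hh
    rw [lq_of hh]
    rcases Nat.eq_zero_or_pos (load (Mt φ τ) h) with h0 | h0
    · exact Or.inl h0
    · refine Or.inr ⟨?_, (load_lt hA hh).le⟩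
      obtain ⟨t, ht⟩ := exists_of_load_pos h0
      rw [mem_Mt] at ht
      obtain ⟨ht, rfl⟩ := ht
      exact two_le_of_op hτ hh (asg_op hτ ht)
  · rintro ⟨t, h, hacc, hw, hl, -⟩
    obtain ⟨t', ht'⟩ := exists_of_load_pos hl
    rw [mem_Mt] at ht'
    obtain ⟨ht', e⟩ := ht'
    have hop : op φ τ h = true := by rw [e]; exact asg_op hτ ht'
    rw [rpref_eq] at hacc
    split_ifs at hacc with ht
    · rcases hw with hw | ⟨h', hm, hp⟩
      · exact hw (asg φ τ t) (mem_Mt.2 ⟨ht, rfl⟩)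
      · rw [mem_Mt] at hm
        obtain ⟨-, rfl⟩ := hm
        unfold RPrefers at hp
        rw [rpref_of ht] at hp
        rw [not_op_of_prefers hτ ht hp] at hop
        exact absurd hop (by simp)
    · simp at hacc

end Forth

/-! ### From matchings to assignments of truth values -/

section Back

variable {M : Finset (ℕ × ℕ)}

theorem all_assigned (hM : IsAssignment (inst φ) M) (hk : (rn φ).length ≤ M.card) {t : ℕ}
    (ht : t ∈ rn φ) : ∃ h, (t, h) ∈ M := by
  have h1 : M.image Prod.fst = (rn φ).toFinset := by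
    apply Finset.eq_of_subset_of_card_le (image_subset hM)
    rw [card_image_fst hM M (Finset.Subset.refl _), List.toFinset_card_of_nodup rn_nodup]
    exact hk
  have h2 : t ∈ M.image Prod.fst := by rw [h1]; exact List.mem_toFinset.2 ht
  rw [Finset.mem_image] at h2
  obtain ⟨⟨t', h⟩, hm, rfl⟩ := h2
  exact ⟨h, hm⟩

theorem not_D (hM : IsMatching (inst φ) M) (t : ℕ) : (t, 3 * t + 2) ∉ M := by
  intro hm
  obtain ⟨ht, hh⟩ := mem_names_of hM.1 hm
  have hhn := mem_hn_of ht hh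
  have h1 : load M (3 * t + 2) ≤ 1 := by
    apply load_le_one (t := t)
    intro t' hm'
    obtain ⟨-, hh'⟩ := mem_names_of hM.1 hm'
    rcases mem_rl.1 hh' with e | ⟨-, s, -, e⟩ | ⟨-, e | e⟩
    · omega
    · rcases occ_cases (φ := φ) s with ⟨-, e'⟩ | ⟨-, e'⟩ <;> omega
    · omega
    · omega
  have h2 := load_pos hm
  rcases hM.2 _ (by rw [hospitals_eq]; exact hhn) with h3 | ⟨h3, -⟩
  · omega
  · rw [lq_of hhn] at h3
    omega

theorem idxOf_X {r i : ℕ} (hi : i = 1 ∨ i = 2) :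
    (rl φ (3 * r + i)).idxOf (3 * vr φ r) < (rl φ (3 * r + i)).idxOf (3 * r + 1) := by
  unfold rl
  rw [if_neg (by omega), show (3 * r + i) / 3 = r by omega]
  rw [List.idxOf_cons_ne _ (by omega), List.idxOf_cons_self, List.idxOf_cons_ne _ (by omega),
    List.idxOf_cons_ne _ (by omega)]
  omega

/-- If the hospital of the variable is open then the hospital of the occurrence is closed. -/
theorem closed_N (hM : PairwiseStable (inst φ) M) {r : ℕ} (hr : r < 3 * φ.length)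
    (hX : 0 < load M (3 * vr φ r)) : load M (3 * r + 1) = 0 := by
  have hXn : 3 * vr φ r ∈ hn φ := mem_hn.2 (Or.inl ⟨_, vr_mem hr, rfl⟩)
  have hNn : 3 * r + 1 ∈ hn φ := mem_hn.2 (Or.inr (Or.inl ⟨r, hr, rfl⟩))
  have h1 : load M (3 * r + 1) ≤ 1 := by
    apply load_le_one (t := 3 * (r / 3))
    intro t hm
    obtain ⟨ht, hh⟩ := mem_names_of hM.1.1 hm
    rcases mem_rl.1 hh with e | ⟨h0, s, hs, e⟩ | ⟨h0, e | e⟩
    · omega
    · rcases occ_cases (φ := φ) s with ⟨-, e'⟩ | ⟨-, e'⟩ <;> omega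
    · omega
    · exfalso
      have hr' : t / 3 = r := by omega
      have ht' : t = 3 * r + 1 ∨ t = 3 * r + 2 := by omega
      obtain ⟨i, hi, rfl⟩ : ∃ i, (i = 1 ∨ i = 2) ∧ t = 3 * r + i := by
        rcases ht' with rfl | rfl
        · exact ⟨1, Or.inl rfl, rfl⟩
        · exact ⟨2, Or.inr rfl, rfl⟩
      apply hM.2
      refine ⟨3 * r + i, 3 * vr φ r, ?_, Or.inr ⟨3 * r + 1, hm, ?_⟩, hX,
        Or.inl (load_lt hM.1.1 hXn)⟩
      · rw [rpref_of ht, mem_rl]
        exact Or.inr (Or.inr ⟨h0, Or.inl (by rw [hr'])⟩)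
      · unfold RPrefers
        rw [rpref_of ht]
        exact idxOf_X hi
  rcases hM.1.2 _ (by rw [hospitals_eq]; exact hNn) with h2 | ⟨h2, -⟩
  · exact h2
  · rw [lq_of hNn] at h2
    omega

theorem sat_of_matching (hM : PairwiseStable (inst φ) M) (hk : (rn φ).length ≤ M.card) :
    SAT3 φ := by
  refine sat_of_slots (fun v => decide (0 < load M (3 * v))) fun r hr => ?_
  have ht : 3 * (r / 3) ∈ rn φ := by rw [mem_rn]; omega
  obtain ⟨h, hm⟩ := all_assigned hM.1.1 hk ht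
  obtain ⟨-, hh⟩ := mem_names_of hM.1.1 hm
  have hl := load_pos hm
  rcases mem_rl.1 hh with rfl | ⟨h0, s, hs, rfl⟩ | ⟨h0, -⟩
  · exact absurd hm (not_D hM.1 _)
  · have hs' : s / 3 = r / 3 := by omega
    refine ⟨s, slot_cases hs', ?_⟩
    have hs3 : s < 3 * φ.length := by omega
    rcases occ_cases (φ := φ) s with ⟨h1, e⟩ | ⟨h1, e⟩
    · rw [e] at hl
      rw [h1]
      simpa using hl
    · rw [e] at hl
      rw [h1]
      by_contra hc
      have h9 : ¬ load M (3 * vr φ s) = 0 := by simpa using hc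
      have : 0 < load M (3 * vr φ s) := Nat.pos_of_ne_zero h9
      rw [closed_N hM hs3 this] at hl
      exact lt_irrefl _ hl
  · omega

end Back

/-! ### No hospital is popular -/

section Pop

/-- Everybody is assigned to the first hospital on the list. -/
def M0 (φ : List (Lit ℕ × Lit ℕ × Lit ℕ)) : Finset (ℕ × ℕ) :=
  (rn φ).toFinset.image (fun t => (t, 3 * t + 2))

theorem mem_M0 {t h : ℕ} : (t, h) ∈ M0 φ ↔ t ∈ rn φ ∧ h = 3 * t + 2 := by
  unfold M0
  simp only [Finset.mem_image, List.mem_toFinset, Prod.mk.injEq]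
  constructor
  · rintro ⟨a, ha, rfl, rfl⟩; exact ⟨ha, rfl⟩
  · rintro ⟨ha, rfl⟩; exact ⟨t, ha, rfl, rfl⟩

theorem idxOf_D (t : ℕ) : (rl φ t).idxOf (3 * t + 2) = 0 := by
  unfold rl
  rw [List.idxOf_cons_self]

theorem stable_M0 : ClassicallyStable (inst φ) (M0 φ) := by
  have hA : IsAssignment (inst φ) (M0 φ) := by
    refine ⟨?_, ?_⟩
    · intro t h hm
      rw [mem_M0] at hm
      obtain ⟨ht, rfl⟩ := hm
      rw [rpref_of ht]
      exact mem_rl.2 (Or.inl rfl)
    · intro t h h' h1 h2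
      rw [mem_M0] at h1 h2
      rw [h1.2, h2.2]
  refine ⟨hA, ?_, ?_⟩
  · intro h hh
    rw [hospitals_eq] at hh
    exact (load_lt hA hh).le
  · rintro ⟨t, h, hacc, hw, -⟩
    rw [rpref_eq] at hacc
    split_ifs at hacc with ht
    · rcases hw with hw | ⟨h', hm, hp⟩
      · exact hw _ (mem_M0.2 ⟨ht, rfl⟩)
      · rw [mem_M0] at hm
        obtain ⟨-, rfl⟩ := hm
        unfold RPrefers at hp
        rw [rpref_of ht, idxOf_D] at hp
        omega
    · simp at hacc

theorem not_popular {h : ℕ} (hh : h ∈ hn φ) : ¬ Popular (inst φ) h := by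
  rintro ⟨Ma, ⟨hMa, hopt⟩, hl⟩
  rw [lq_of hh] at hl
  have key : ∀ t h, (t, h) ∈ Ma → h = 3 * t + 2 := by
    intro t h hm
    obtain ⟨ht, -⟩ := mem_names_of hMa.1 hm
    obtain ⟨h', hm', he⟩ := hopt _ stable_M0 t (3 * t + 2) (mem_M0.2 ⟨ht, rfl⟩)
    rw [hMa.1.unique t h h' hm hm']
    rcases he with he | he
    · exact he
    · exfalso
      unfold RPrefers at he
      rw [rpref_of ht, idxOf_D] at he
      omega
  have : load Ma h ≤ 1 := by
    apply load_le_one (t := h / 3)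
    intro t hm
    have := key t h hm
    omega
  omega

end Pop

theorem red_A {lo : ℕ} (hlo : lo ≤ 2) : SAT3 φ ↔ ProblemA lo (inst φ, (rn φ).length) := by
  constructor
  · rintro ⟨τ, hτ⟩
    exact ⟨isInst_inst, lq_inst lo hlo, Mt φ τ, stable_Mt (slots_of_sat hτ), card_Mt.ge⟩
  · rintro ⟨-, -, M, hM, hk⟩
    exact sat_of_matching hM hk

theorem red_B {lo : ℕ} (hlo : lo ≤ 2) : SAT3 φ ↔ ProblemB lo (inst φ, (rn φ).length) := by
  constructor
  · rintro ⟨τ, hτ⟩
    refine ⟨isInst_inst, lq_inst lo hlo, Mt φ τ, ⟨stable_Mt (slots_of_sat hτ), ?_⟩, card_Mt.ge⟩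
    intro h hh hp
    rw [hospitals_eq] at hh
    exact absurd hp (not_popular hh)
  · rintro ⟨-, -, M, hM, hk⟩
    exact sat_of_matching hM.1 hk

end Pool.Agent.NPC.R536LQ
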