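import Pool.Agent.R536.LQ.Red

/-!
# The reduction is computed in polynomial time
-/

set_option autoImplicit false

namespace Pool.Agent.NPC.R536LQ

open Pool.Agent.NPC.R536CS

section

variable {α : Type} [TEnc α]

theorem pOcc {φ : α → List (Lit ℕ × Lit ℕ × Lit ℕ)} {r : α → ℕ} (hφ : Poly φ) (hr : Poly r) :
    Poly (fun a => occ (φ a) (r a)) := by
  unfold occ; fun_prop

attribute [fun_prop] pOcc

theorem pRl {φ : α → List (Lit ℕ × Lit ℕ × Lit ℕ)} {t : α → ℕ} (hφ : Poly φ) (ht : Poly t) :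
    Poly (fun a => rl (φ a) (t a)) := by
  unfold rl; fun_prop

attribute [fun_prop] pRl

end

theorem pRn : Poly rn := by
  have h1 : Poly (fun φ : List (Lit ℕ × Lit ℕ × Lit ℕ) => List.range (9 * φ.length)) :=
    (UPoly.mul (UPoly.const 9) (UPoly.length Poly.id)).range
  unfold rn
  fun_prop

theorem pHn : Poly hn := by
  have h2 : Poly (fun φ : List (Lit ℕ × Lit ℕ × Lit ℕ) => List.range (3 * φ.length)) :=
    (UPoly.mul (UPoly.const 3) (UPoly.length Poly.id)).range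
  have h3 := pRn
  unfold hn
  fun_prop


theorem pHl : Poly (fun p : List (Lit ℕ × Lit ℕ × Lit ℕ) × ℕ => hl p.1 p.2) := by
  have h3 : Poly (fun p : List (Lit ℕ × Lit ℕ × Lit ℕ) × ℕ => rn p.1) := pRn.comp (Poly.fst Poly.id)
  unfold hl
  fun_prop

theorem red_poly : Poly (fun φ : List (Lit ℕ × Lit ℕ × Lit ℕ) => (inst φ, (rn φ).length)) := by
  have h1 := pRn
  have h2 := pHn
  unfold inst
  refine Poly.pair (Poly.pair ?_ ?_) ?_
  · refine Poly.map (F := fun (φ : List (Lit ℕ × Lit ℕ × Lit ℕ)) t => (t, rl φ t)) h1 ?_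
    fun_prop
  · refine Poly.map (F := fun (φ : List (Lit ℕ × Lit ℕ × Lit ℕ)) h =>
      (h, ((2, 9 * φ.length + 2), hl φ h))) h2 ?_
    refine Poly.pair (by fun_prop) (Poly.pair (Poly.pair (Poly.const 2) ?_) pHl)
    fun_prop
  · fun_prop

theorem hard_A {lo : ℕ} (hlo : lo ≤ 2) : NPHardP (ProblemA lo) :=
  (hardI_SAT3.trans red_poly fun _ => red_A hlo).toNPHardP

theorem hard_B {lo : ℕ} (hlo : lo ≤ 2) : NPHardP (ProblemB lo) :=
  (hardI_SAT3.trans red_poly fun _ => red_B hlo).toNPHardP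

end Pool.Agent.NPC.R536LQ
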